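import Pool.Agent.K1H30.ES.Stm

/-!
Piece CNT of the project ES: dimensions of the classes `a L + e f`.
-/

set_option autoImplicit false

namespace Pool.Agent.K1H67.ES

open MvPolynomial
open Pool.Agent.K1H30.ES

/-- the pole order allowed for the power `j` of `z` -/
def pj (A B a : ℕ) (e : ℤ) (j : ℕ) : ℤ := e + ((a : ℤ) - (j : ℤ)) * A + (j : ℤ) * B

/-- number of `i` with `2 i ≤ p` -/
def N0 (p : ℤ) : ℕ := ((p + 2) / 2).toNat

/-- number of `i` with `2 i + 3 ≤ p` -/
def N1 (p : ℤ) : ℕ := ((p - 1) / 2).toNat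

theorem N_eq (p : ℤ) (hp : 1 ≤ p) : ((N0 p + N1 p : ℕ) : ℤ) = p := by
  unfold N0 N1
  omega

theorem N_ge (p : ℤ) : p ≤ ((N0 p + N1 p : ℕ) : ℤ) := by
  unfold N0 N1
  omega

/-- `Idx` as a finset -/
def FI (A B a : ℕ) (e : ℤ) : Finset (ℕ × ℕ × ℕ) :=
  (Finset.range (a + 1)).biUnion (fun j =>
    (Finset.range (N0 (pj A B a e j))).image (fun i => (i, 0, j)) ∪
      (Finset.range (N1 (pj A B a e j))).image (fun i => (i, 1, j)))

theorem coe_FI (A B a : ℕ) (e : ℤ) : (FI A B a e : Set (ℕ × ℕ × ℕ)) = Idx A B a e := by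
  ext ⟨i, ε, j⟩
  simp only [FI, Finset.coe_biUnion, Finset.coe_range, Set.mem_iUnion, Finset.mem_coe,
    Finset.mem_union, Finset.mem_image, Finset.mem_range, Prod.mk.injEq, Idx, Set.mem_ofPred_eq,
    Set.mem_Iio, exists_prop]
  have h1 : e + ((a : ℤ) - (j : ℤ)) * A + (j : ℤ) * B = pj A B a e j := rfl
  rw [h1]
  constructor
  · rintro ⟨j', hj', ⟨i', hi', rfl, rfl, rfl⟩ | ⟨i', hi', rfl, rfl, rfl⟩⟩
    · unfold N0 at hi'
      omega
    · unfold N1 at hi'
      omega
  · rintro ⟨h2, h3, h4⟩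
    refine ⟨j, by omega, ?_⟩
    have h5 : ε = 0 ∨ ε = 1 := by omega
    rcases h5 with rfl | rfl
    · left
      refine ⟨i, ?_, rfl, rfl, rfl⟩
      unfold N0
      omega
    · right
      refine ⟨i, ?_, rfl, rfl, rfl⟩
      unfold N1
      omega

theorem card_FI (A B a : ℕ) (e : ℤ) :
    (FI A B a e).card = ∑ j ∈ Finset.range (a + 1), (N0 (pj A B a e j) + N1 (pj A B a e j)) := by
  rw [FI, Finset.card_biUnion]
  · refine Finset.sum_congr rfl fun j _ => ?_
    rw [Finset.card_union_of_disjoint, Finset.card_image_of_injective,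
      Finset.card_image_of_injective, Finset.card_range, Finset.card_range]
    · intro x y h
      exact (Prod.mk.inj h).1
    · intro x y h
      exact (Prod.mk.inj h).1
    · rw [Finset.disjoint_left]
      rintro ⟨i, ε, j'⟩ h1 h2
      simp only [Finset.mem_image, Prod.mk.injEq] at h1 h2
      obtain ⟨_, _, _, h3, _⟩ := h1
      obtain ⟨_, _, _, h4, _⟩ := h2
      omega
  · intro j _ j' _ hne
    rw [Function.onFun, Finset.disjoint_left]
    rintro ⟨i, ε, j''⟩ h1 h2
    simp only [Finset.mem_union, Finset.mem_image, Prod.mk.injEq] at h1 h2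
    apply hne
    rcases h1 with ⟨_, _, _, _, h3⟩ | ⟨_, _, _, _, h3⟩ <;>
      rcases h2 with ⟨_, _, _, _, h4⟩ | ⟨_, _, _, _, h4⟩ <;> omega

/-- the exponent vector -/
noncomputable def ex (m : ℕ × ℕ × ℕ) : Fin 3 →₀ ℕ :=
  Finsupp.single 0 m.1 + Finsupp.single 1 m.2.1 + Finsupp.single 2 m.2.2

theorem ex_inj : Function.Injective ex := by
  rintro ⟨a, b, c⟩ ⟨a', b', c'⟩ h
  have h0 := DFunLike.congr_fun h 0
  have h1 := DFunLike.congr_fun h 1
  have h2 := DFunLike.congr_fun h 2
  simp [ex] at h0 h1 h2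
  rw [h0, h1, h2]

theorem mn_eq (K : Type) [Field K] (m : ℕ × ℕ × ℕ) :
    (mn m : P3 K) = basisMonomials (Fin 3) K (ex m) := by
  rw [coe_basisMonomials]
  simp only [mn, ex]
  rw [X_pow_eq_monomial, X_pow_eq_monomial, X_pow_eq_monomial, monomial_mul, monomial_mul]
  simp

theorem finrank_Cls (K : Type) [Field K] (A B a : ℕ) (e : ℤ) :
    Module.finrank K (Cls K A B a e) = (FI A B a e).card := by
  have hli : LinearIndependent K (fun m : FI A B a e => (mn m.1 : P3 K)) := by
    have h1 := (basisMonomials (Fin 3) K).linearIndependent.comp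
      (fun m : FI A B a e => ex m.1) (fun x y h => Subtype.ext (ex_inj h))
    have e1 : (fun m : FI A B a e => (mn m.1 : P3 K)) =
        (basisMonomials (Fin 3) K) ∘ (fun m : FI A B a e => ex m.1) :=
      funext fun m => mn_eq K m.1
    rw [e1]
    exact h1
  have h2 : Cls K A B a e =
      Submodule.span K (Set.range (fun m : FI A B a e => (mn m.1 : P3 K))) := by
    unfold Cls
    congr 1
    rw [← coe_FI]
    ext x
    simp
  rw [h2, finrank_span_eq_card hli, Fintype.card_coe]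

theorem sum_pj (A B a : ℕ) (e : ℤ) :
    2 * ∑ j ∈ Finset.range (a + 1), pj A B a e j = ((a : ℤ) + 1) * ((a : ℤ) * (A + B) + 2 * e) := by
  have hG : (∑ j ∈ Finset.range (a + 1), (j : ℤ)) * 2 = ((a : ℤ) + 1) * a := by
    have h := Finset.sum_range_id_mul_two (a + 1)
    have h' : ((∑ j ∈ Finset.range (a + 1), j) * 2 : ℕ) = (a + 1) * a := by
      rw [h]; simp
    have h3 := congrArg (fun k : ℕ => (k : ℤ)) h'
    push_cast at h3
    exact h3
  have h1 : ∑ j ∈ Finset.range (a + 1), pj A B a e j =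
      ((a : ℤ) + 1) * (e + a * A) + (∑ j ∈ Finset.range (a + 1), (j : ℤ)) * (B - A) := by
    rw [Finset.sum_mul]
    have h2 : ((a : ℤ) + 1) * (e + a * A) = ∑ _j ∈ Finset.range (a + 1), (e + (a : ℤ) * A) := by
      rw [Finset.sum_const, Finset.card_range, nsmul_eq_mul]
      push_cast
      ring
    rw [h2, ← Finset.sum_add_distrib]
    refine Finset.sum_congr rfl fun j _ => ?_
    unfold pj
    ring
  rw [h1]
  linear_combination ((B : ℤ) - A) * hG

theorem t_CNT : S_CNT := by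
  intro K _ A B a e hA hB
  refine ⟨?_, ?_, ?_⟩
  · unfold Cls
    apply FiniteDimensional.span_of_finite
    apply Set.Finite.image
    rw [← coe_FI]
    exact Finset.finite_toSet _
  · intro ha
    rw [finrank_Cls, card_FI]
    have h1 : ((∑ j ∈ Finset.range (a + 1),
        (N0 (pj A B a 0 j) + N1 (pj A B a 0 j)) : ℕ) : ℤ) =
        ∑ j ∈ Finset.range (a + 1), pj A B a 0 j := by
      rw [Nat.cast_sum]
      refine Finset.sum_congr rfl fun j hj => ?_
      rw [Finset.mem_range] at hj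
      apply N_eq
      unfold pj
      have h2 : (0 : ℤ) ≤ (a : ℤ) - j := by omega
      have h3 : (1 : ℤ) ≤ A := by exact_mod_cast hA
      have h4 : (1 : ℤ) ≤ B := by exact_mod_cast hB
      have h5 : (0 : ℤ) ≤ (j : ℤ) := by positivity
      have h6 : (a : ℤ) - j ≤ ((a : ℤ) - j) * A := by nlinarith
      have h7 : (j : ℤ) ≤ (j : ℤ) * B := by nlinarith
      have h8 : (1 : ℤ) ≤ a := by exact_mod_cast ha
      linarith
    have h2 := sum_pj A B a 0
    rw [← h1] at h2
    have h3 : ((2 * (∑ j ∈ Finset.range (a + 1),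
        (N0 (pj A B a 0 j) + N1 (pj A B a 0 j))) : ℕ) : ℤ) =
        (((a + 1) * a * (A + B) : ℕ) : ℤ) := by
      push_cast at h2 ⊢
      linear_combination h2
    exact_mod_cast h3
  · rw [finrank_Cls, card_FI, ← sum_pj, Nat.cast_sum]
    have h1 : ∑ j ∈ Finset.range (a + 1), pj A B a e j ≤
        ∑ j ∈ Finset.range (a + 1), ((N0 (pj A B a e j) + N1 (pj A B a e j) : ℕ) : ℤ) :=
      Finset.sum_le_sum fun j _ => N_ge _
    linarith

end Pool.Agent.K1H67.ES
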